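import Mathlib

/-! Two real algebras with isomorphic critical reducts and the same identities which are not
isomorphic in the enlarged signature. -/

set_option autoImplicit false

namespace Pool.Agent.Results.MP_3dda3d_al.Disproof

/-- A signature: operation symbols with arities. -/
structure Sig where
  Op : Type
  ar : Op → ℕ

/-- The formal monomials in the variables `x_0, x_1, ...`. -/
inductive Mon (S : Sig) : Type
  | var : ℕ → Mon S
  | node : (w : S.Op) → (Fin (S.ar w) → Mon S) → Mon S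

/-- The structure of an `S`-algebra on the `k`-module `A`: a multilinear map for every operation
symbol. -/
abbrev Str (S : Sig) (k A : Type) [CommRing k] [AddCommGroup A] [Module k A] : Type :=
  (w : S.Op) → MultilinearMap k (fun _ : Fin (S.ar w) => A) A

section

variable {S : Sig} {k : Type} [CommRing k]
variable {A : Type} [AddCommGroup A] [Module k A]
variable {B : Type} [AddCommGroup B] [Module k B]

/-- The value of a monomial under the substitution `x_n ↦ v n`. -/
def Mon.ev (s : Str S k A) (v : ℕ → A) : Mon S → A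
  | .var n => v n
  | .node w a => s w fun i => (a i).ev s v

/-- The value of an element of the free algebra (the free `k`-module on the monomials). -/
noncomputable def evp (s : Str S k A) (v : ℕ → A) (f : Mon S →₀ k) : A := f.sum fun m c => c • m.ev s v

/-- The set of identities `Id_S(A)`. -/
def Idt (s : Str S k A) : Set (Mon S →₀ k) := {f | ∀ v : ℕ → A, evp s v f = 0}

/-- Homomorphisms. -/
def IsHom (s : Str S k A) (t : Str S k B) (g : A →ₗ[k] B) : Prop :=
  ∀ (w : S.Op) (a : Fin (S.ar w) → A), g (s w a) = t w fun i => g (a i)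

/-- Isomorphism of `S`-algebras. -/
def Isom (s : Str S k A) (t : Str S k B) : Prop := ∃ g : A ≃ₗ[k] B, IsHom s t g

/-- `(C, t)` is (isomorphic to) the proper section of `(A, s)` given by the subalgebra `R` and the
surjective homomorphism `p : R → C`, i.e. it is `R / ker p`, and `R ≠ A` or `ker p ≠ 0`. -/
def IsProperSection (s : Str S k A) {C : Type} [AddCommGroup C] [Module k C] (t : Str S k C)
    (R : Submodule k A) (p : R →ₗ[k] C) : Prop :=
  (∀ (w : S.Op) (a : Fin (S.ar w) → R), ∃ h : s w (fun i => (a i : A)) ∈ R,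
    p ⟨s w (fun i => (a i : A)), h⟩ = t w fun i => p (a i)) ∧
  Function.Surjective p ∧ (R ≠ ⊤ ∨ ¬ Function.Injective p)

/-- `(A, s)` is critical: it does not lie in the variety generated by its proper sections, i.e.
there is an identity of all proper sections which is not an identity of `A`. -/
def Critical (s : Str S k A) : Prop :=
  ∃ f : Mon S →₀ k, f ∉ Idt s ∧
    ∀ (C : Type) [AddCommGroup C] [Module k C] (t : Str S k C) (R : Submodule k A)
      (p : R →ₗ[k] C), IsProperSection s t R p → f ∈ Idt t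

/-- The subsignature given by a set of operation symbols. -/
def Sig.sub (S : Sig) (Ω : Set S.Op) : Sig := ⟨Ω, fun w => S.ar w⟩

/-- The reduct of an algebra to a subsignature. -/
def reduct (Ω : Set S.Op) (s : Str S k A) : Str (S.sub Ω) k A := fun w => s w.1

end

/-- The operation symbols: a binary and a ternary one. -/
inductive Op₀ : Type
  | mul
  | ter

/-- The signature with a binary and a ternary operation. -/
def S₀ : Sig := ⟨Op₀, fun w => match w with | .mul => 2 | .ter => 3⟩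

/-- the multiplication `(a, b) (a', b') = (a a', a b')` -/
def mulM : MultilinearMap ℝ (fun _ : Fin 2 => ℝ × ℝ) (ℝ × ℝ) :=
  ((MultilinearMap.mkPiAlgebra ℝ (Fin 2) ℝ).compLinearMap
    (fun _ => LinearMap.fst ℝ ℝ ℝ)).prod
  ((MultilinearMap.mkPiAlgebra ℝ (Fin 2) ℝ).compLinearMap
    ![LinearMap.fst ℝ ℝ ℝ, LinearMap.snd ℝ ℝ ℝ])

theorem mulM_apply (a : Fin 2 → ℝ × ℝ) : mulM a = ((a 0).1 * (a 1).1, (a 0).1 * (a 1).2) := by
  simp [mulM, Fin.prod_univ_two]

/-- the ternary operation `(0, u b b' b'')` -/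
def terM (u : ℝ) : MultilinearMap ℝ (fun _ : Fin 3 => ℝ × ℝ) (ℝ × ℝ) :=
  (0 : MultilinearMap ℝ (fun _ : Fin 3 => ℝ × ℝ) ℝ).prod
  (u • (MultilinearMap.mkPiAlgebra ℝ (Fin 3) ℝ).compLinearMap
    (fun _ => LinearMap.snd ℝ ℝ ℝ))

theorem terM_apply (u : ℝ) (a : Fin 3 → ℝ × ℝ) :
    terM u a = (0, u * ((a 0).2 * (a 1).2 * (a 2).2)) := by
  simp [terM, Fin.prod_univ_three]

/-- the family of algebras -/
def st (u : ℝ) : Str S₀ ℝ (ℝ × ℝ) := fun w =>
  match w with
  | .mul => mulM
  | .ter => terM u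

theorem ev_mul (u : ℝ) (v : ℕ → ℝ × ℝ) (a : Fin 2 → Mon S₀) :
    Mon.ev (st u) v (.node (S := S₀) Op₀.mul a) =
      (((a 0).ev (st u) v).1 * ((a 1).ev (st u) v).1, ((a 0).ev (st u) v).1 * ((a 1).ev (st u) v).2) :=
  mulM_apply fun i => (a i).ev (st u) v

theorem ev_ter (u : ℝ) (v : ℕ → ℝ × ℝ) (a : Fin 3 → Mon S₀) :
    Mon.ev (st u) v (.node (S := S₀) Op₀.ter a) =
      (0, u * (((a 0).ev (st u) v).2 * ((a 1).ev (st u) v).2 * ((a 2).ev (st u) v).2)) :=
  terM_apply u fun i => (a i).ev (st u) v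

/-- induction on monomials -/
theorem mon_ind {M : Mon S₀ → Prop} (h0 : ∀ n, M (.var n))
    (h1 : ∀ a : Fin 2 → Mon S₀, (∀ i, M (a i)) → M (.node (S := S₀) Op₀.mul a))
    (h2 : ∀ a : Fin 3 → Mon S₀, (∀ i, M (a i)) → M (.node (S := S₀) Op₀.ter a)) (m : Mon S₀) :
    M m := by
  induction m with
  | var n => exact h0 n
  | node w a ih =>
    cases w with
    | mul => exact h1 a ih
    | ter => exact h2 a ih

/-- coordinates of values of monomials are polynomials in `u` -/
theorem poly_mon (v : ℕ → ℝ × ℝ) (m : Mon S₀) :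
    ∃ P Q : Polynomial ℝ, ∀ u, m.ev (st u) v = (P.eval u, Q.eval u) := by
  induction m using mon_ind with
  | h0 n => exact ⟨.C (v n).1, .C (v n).2, fun u => by simp [Mon.ev]⟩
  | h1 a ih =>
    choose P Q hPQ using ih
    refine ⟨P 0 * P 1, P 0 * Q 1, fun u => ?_⟩
    rw [ev_mul, hPQ, hPQ]
    simp
  | h2 a ih =>
    choose P Q hPQ using ih
    refine ⟨0, .X * (Q 0 * Q 1 * Q 2), fun u => ?_⟩
    rw [ev_ter, hPQ, hPQ, hPQ]
    simp

theorem poly_evp (v : ℕ → ℝ × ℝ) (f : Mon S₀ →₀ ℝ) :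
    ∃ P Q : Polynomial ℝ, ∀ u, evp (st u) v f = (P.eval u, Q.eval u) := by
  choose P Q hPQ using poly_mon v
  refine ⟨f.sum fun m c => .C c * P m, f.sum fun m c => .C c * Q m, fun u => ?_⟩
  unfold evp Finsupp.sum
  rw [Polynomial.eval_finsetSum, Polynomial.eval_finsetSum]
  ext
  · rw [Prod.fst_sum]
    refine Finset.sum_congr rfl fun m _ => ?_
    simp only [hPQ]; simp
  · rw [Prod.snd_sum]
    refine Finset.sum_congr rfl fun m _ => ?_
    simp only [hPQ]; simp

/-- identities on infinitely many members of the family hold everywhere -/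
theorem all_of_infinite {f : Mon S₀ →₀ ℝ} {T : Set ℝ} (hT : T.Infinite)
    (h : ∀ u ∈ T, f ∈ Idt (st u)) (u : ℝ) : f ∈ Idt (st u) := by
  intro v
  obtain ⟨P, Q, hPQ⟩ := poly_evp v f
  have hP : P = 0 := by
    refine Polynomial.eq_zero_of_infinite_isRoot P (hT.mono fun t ht => ?_)
    have := h t ht v
    rw [hPQ] at this
    exact congrArg Prod.fst this
  have hQ : Q = 0 := by
    refine Polynomial.eq_zero_of_infinite_isRoot Q (hT.mono fun t ht => ?_)
    have := h t ht v
    rw [hPQ] at this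
    exact congrArg Prod.snd this
  rw [hPQ, hP, hQ]; simp

/-- rescaling -/
theorem scale_mon {r : ℝ} (u : ℝ) (v : ℕ → ℝ × ℝ) (m : Mon S₀) :
    m.ev (st u) (fun n => ((v n).1, r * (v n).2)) =
      ((m.ev (st (r ^ 2 * u)) v).1, r * (m.ev (st (r ^ 2 * u)) v).2) := by
  induction m using mon_ind with
  | h0 n => rfl
  | h1 a ih =>
    rw [ev_mul, ev_mul, ih, ih]
    simp only [Prod.mk.injEq, true_and]
    ring
  | h2 a ih =>
    rw [ev_ter, ev_ter, ih, ih, ih]
    simp only [Prod.mk.injEq, true_and]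
    ring

theorem scale_evp {r : ℝ} (u : ℝ) (v : ℕ → ℝ × ℝ) (f : Mon S₀ →₀ ℝ) :
    evp (st u) (fun n => ((v n).1, r * (v n).2)) f =
      ((evp (st (r ^ 2 * u)) v f).1, r * (evp (st (r ^ 2 * u)) v f).2) := by
  unfold evp Finsupp.sum
  ext
  · simp only [Prod.fst_sum]
    refine Finset.sum_congr rfl fun m _ => ?_
    rw [scale_mon]; rfl
  · simp only [Prod.snd_sum, Finset.mul_sum]
    refine Finset.sum_congr rfl fun m _ => ?_
    rw [scale_mon]
    simp only [Prod.smul_snd, smul_eq_mul]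
    ring

theorem idt_le {u : ℝ} (hu : u ≠ 0) (u' : ℝ) : Idt (st u) ⊆ Idt (st u') := by
  intro f hf
  refine all_of_infinite (T := {t | ∃ r : ℝ, 0 < r ∧ t = r ^ 2 * u}) ?_ ?_ u'
  · refine Set.infinite_of_injective_forall_mem (f := fun n : ℕ => ((n : ℝ) + 1) ^ 2 * u) ?_ ?_
    · intro m n h
      simp only at h
      have h1 := mul_right_cancel₀ hu h
      have h2 : (m : ℝ) + 1 = n + 1 := by
        have hm : (0 : ℝ) ≤ (m : ℝ) + 1 := by positivity
        have hn : (0 : ℝ) ≤ (n : ℝ) + 1 := by positivity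
        exact (pow_left_inj₀ hm hn two_ne_zero).1 h1
      exact_mod_cast (add_right_cancel h2)
    · intro n
      exact ⟨(n : ℝ) + 1, by positivity, rfl⟩
  · rintro _ ⟨r, hr, rfl⟩ v
    have h1 := hf (fun n => ((v n).1, r * (v n).2))
    rw [scale_evp] at h1
    have h2 := congrArg Prod.fst h1
    have h3 := congrArg Prod.snd h1
    simp only [Prod.snd_zero, Prod.fst_zero, mul_eq_zero] at h2 h3
    exact Prod.ext h2 (h3.resolve_left hr.ne')

theorem idt_eq {u u' : ℝ} (hu : u ≠ 0) (hu' : u' ≠ 0) : Idt (st u) = Idt (st u') :=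
  Set.Subset.antisymm (idt_le hu u') (idt_le hu' u)

/-- the subsignature: the multiplication -/
def Ω₀ : Set S₀.Op := {Op₀.mul}

/-- the multiplication as a symbol of the subsignature -/
def mu : (S₀.sub Ω₀).Op := ⟨Op₀.mul, rfl⟩

/-- the monomials `x_0 x_1` and `x_1 x_0` -/
def m01 : Mon (S₀.sub Ω₀) := .node mu ![.var 0, .var 1]
def m10 : Mon (S₀.sub Ω₀) := .node mu ![.var 1, .var 0]

/-- the commutator -/
noncomputable def comm : Mon (S₀.sub Ω₀) →₀ ℝ := Finsupp.single m01 1 - Finsupp.single m10 1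

theorem evp_comm {C : Type} [AddCommGroup C] [Module ℝ C] (t : Str (S₀.sub Ω₀) ℝ C) (v : ℕ → C) :
    evp t v comm = t mu ![v 0, v 1] - t mu ![v 1, v 0] := by
  have h : evp t v comm = evp t v (Finsupp.single m01 1) - evp t v (Finsupp.single m10 1) := by
    unfold evp comm
    rw [Finsupp.sum_sub_index]
    intro m a b
    rw [sub_smul]
  rw [h]
  unfold evp
  rw [Finsupp.sum_single_index (by simp), Finsupp.sum_single_index (by simp), one_smul, one_smul]
  have e1 : m01.ev t v = t mu ![v 0, v 1] := by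
    show t mu _ = _
    congr 1
    funext i
    change Fin 2 at i
    fin_cases i <;> rfl
  have e2 : m10.ev t v = t mu ![v 1, v 0] := by
    show t mu _ = _
    congr 1
    funext i
    change Fin 2 at i
    fin_cases i <;> rfl
  rw [e1, e2]

theorem reduct_mu (u : ℝ) (a : Fin 2 → ℝ × ℝ) :
    reduct Ω₀ (st u) mu a = ((a 0).1 * (a 1).1, (a 0).1 * (a 1).2) := mulM_apply a

theorem critical (u : ℝ) : Critical (reduct Ω₀ (st u)) := by
  refine ⟨comm, ?_, ?_⟩
  · intro h
    have h1 := h (fun n => if n = 0 then (1, 0) else (0, 1))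
    rw [evp_comm] at h1
    have h2 := congrArg Prod.snd h1
    simp only [reduct_mu, Prod.snd_sub] at h2
    norm_num at h2
  · intro C _ _ t R p ⟨hsub, hsurj, hprop⟩ v
    rw [evp_comm]
    obtain ⟨a, ha⟩ := hsurj (v 0)
    obtain ⟨b, hb⟩ := hsurj (v 1)
    obtain ⟨h01, e01⟩ := hsub mu ![a, b]
    obtain ⟨h10, e10⟩ := hsub mu ![b, a]
    have f01 : t mu ![v 0, v 1] = p ⟨_, h01⟩ := by
      rw [e01]
      congr 1
      funext i
      change Fin 2 at i
      fin_cases i
      · exact ha.symm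
      · exact hb.symm
    have f10 : t mu ![v 1, v 0] = p ⟨_, h10⟩ := by
      rw [e10]
      congr 1
      funext i
      change Fin 2 at i
      fin_cases i
      · exact hb.symm
      · exact ha.symm
    rw [f01, f10, ← map_sub]
    -- the commutator of `a` and `b`
    set d : ℝ := (a : ℝ × ℝ).1 * (b : ℝ × ℝ).2 - (b : ℝ × ℝ).1 * (a : ℝ × ℝ).2 with hd
    have hdiff : ((⟨_, h01⟩ - ⟨_, h10⟩ : R) : ℝ × ℝ) = (0, d) := by
      have hA := reduct_mu u (fun i => ((![a, b] i : R) : ℝ × ℝ))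
      have hB := reduct_mu u (fun i => ((![b, a] i : R) : ℝ × ℝ))
      show (reduct Ω₀ (st u) mu fun i => ((![a, b] i : R) : ℝ × ℝ)) -
        (reduct Ω₀ (st u) mu fun i => ((![b, a] i : R) : ℝ × ℝ)) = (0, d)
      refine (congrArg₂ (fun x y : ℝ × ℝ => x - y) hA hB).trans ?_
      rw [hd]
      ext
      · show (a : ℝ × ℝ).1 * (b : ℝ × ℝ).1 - (b : ℝ × ℝ).1 * (a : ℝ × ℝ).1 = 0
        ring
      · rfl
    by_cases hd0 : d = 0
    · have : (⟨_, h01⟩ - ⟨_, h10⟩ : R) = 0 := by
        apply Subtype.ext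
        rw [hdiff, hd0]; rfl
      rw [this, map_zero]
    · -- then `R` is everything
      have hR : R = ⊤ := by
        rw [Submodule.eq_top_iff']
        intro x
        have hx : x = ((x.1 * (b : ℝ × ℝ).2 - (b : ℝ × ℝ).1 * x.2) / d) • (a : ℝ × ℝ) +
            (((a : ℝ × ℝ).1 * x.2 - x.1 * (a : ℝ × ℝ).2) / d) • (b : ℝ × ℝ) := by
          ext
          · simp only [Prod.fst_add, Prod.smul_fst, smul_eq_mul]
            field_simp
            rw [hd]; ring
          · simp only [Prod.snd_add, Prod.smul_snd, smul_eq_mul]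
            field_simp
            rw [hd]; ring
        rw [hx]
        exact R.add_mem (R.smul_mem _ a.2) (R.smul_mem _ b.2)
      have hninj := hprop.resolve_left (fun h => h hR)
      have hmem : ∀ x : ℝ × ℝ, x ∈ R := fun x => by rw [hR]; trivial
      have hker : ∃ z : R, p z = 0 ∧ z ≠ 0 := by
        by_contra hcon
        push Not at hcon
        exact hninj ((injective_iff_map_eq_zero p).2 fun z hz => hcon z hz)
      obtain ⟨z, hz, hz0⟩ := hker
      -- `p` kills `(0, 1)`
      have hx1 : p ⟨(0, 1), hmem _⟩ = 0 := by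
        by_cases hz1 : (z : ℝ × ℝ).1 = 0
        · have hz2 : (z : ℝ × ℝ).2 ≠ 0 := by
            intro h
            apply hz0
            apply Subtype.ext
            ext
            · exact hz1
            · exact h
          have : (⟨(0, 1), hmem _⟩ : R) = ((z : ℝ × ℝ).2)⁻¹ • z := by
            apply Subtype.ext
            ext
            · simp [hz1]
            · simp [hz2]
          rw [this, map_smul, hz, smul_zero]
        · obtain ⟨h1, e1⟩ := hsub mu ![z, ⟨(0, 1), hmem _⟩]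
          have e2 : p ⟨_, h1⟩ = 0 := by
            rw [e1]
            refine (t mu).map_coord_zero (0 : Fin 2) ?_
            exact hz
          have : (⟨(0, 1), hmem _⟩ : R) = ((z : ℝ × ℝ).1)⁻¹ • ⟨_, h1⟩ := by
            apply Subtype.ext
            have hA := reduct_mu u (fun i => ((![z, ⟨(0, 1), hmem _⟩] i : R) : ℝ × ℝ))
            show ((0 : ℝ), (1 : ℝ)) = ((z : ℝ × ℝ).1)⁻¹ •
              (reduct Ω₀ (st u) mu fun i => ((![z, ⟨(0, 1), hmem _⟩] i : R) : ℝ × ℝ))
            refine Eq.trans ?_ (congrArg (fun x : ℝ × ℝ => ((z : ℝ × ℝ).1)⁻¹ • x) hA).symm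
            ext
            · show (0 : ℝ) = ((z : ℝ × ℝ).1)⁻¹ * ((z : ℝ × ℝ).1 * 0)
              ring
            · show (1 : ℝ) = ((z : ℝ × ℝ).1)⁻¹ * ((z : ℝ × ℝ).1 * 1)
              field_simp
          rw [this, map_smul, e2, smul_zero]
      have : (⟨_, h01⟩ - ⟨_, h10⟩ : R) = d • ⟨(0, 1), hmem _⟩ := by
        apply Subtype.ext
        rw [hdiff]
        ext
        · show (0 : ℝ) = d * 0
          ring
        · show d = d * 1
          ring
      rw [this, map_smul, hx1, smul_zero]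

theorem not_isom : ¬ Isom (st 1) (st (-1)) := by
  rintro ⟨g, hg⟩
  have h1 : g (mulM ![((0 : ℝ), (1 : ℝ)), (0, 1)]) =
      mulM (fun i => g ((![((0 : ℝ), (1 : ℝ)), (0, 1)] : Fin 2 → ℝ × ℝ) i)) :=
    hg Op₀.mul ![((0 : ℝ), (1 : ℝ)), (0, 1)]
  rw [mulM_apply, mulM_apply] at h1
  have h2 : g (terM 1 ![((0 : ℝ), (1 : ℝ)), (0, 1), (0, 1)]) =
      terM (-1) (fun i => g ((![((0 : ℝ), (1 : ℝ)), (0, 1), (0, 1)] : Fin 3 → ℝ × ℝ) i)) :=
    hg Op₀.ter ![((0 : ℝ), (1 : ℝ)), (0, 1), (0, 1)]
  rw [terM_apply, terM_apply] at h2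
  set z : ℝ × ℝ := g (0, 1) with hz
  have e0 : (0 : ℝ × ℝ) = (z.1 * z.1, z.1 * z.2) := by
    have : g ((0 : ℝ) * 0, (0 : ℝ) * 1) = (z.1 * z.1, z.1 * z.2) := h1
    rw [← this]
    have h : (((0 : ℝ) * 0, (0 : ℝ) * 1) : ℝ × ℝ) = 0 := by ext <;> simp
    rw [h, map_zero]
  have z1 : z.1 = 0 := by
    have := congrArg Prod.fst e0
    simpa using this.symm
  have e1 : z = (0, -1 * (z.2 * z.2 * z.2)) := by
    have : g ((0 : ℝ), (1 : ℝ) * (1 * 1 * 1)) = (0, -1 * (z.2 * z.2 * z.2)) := h2
    rw [← this, hz]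
    norm_num
  have z2 : z.2 = 0 := by
    have := congrArg Prod.snd e1
    simp only at this
    have h3 : z.2 * (1 + z.2 * z.2) = 0 := by linarith
    rcases mul_eq_zero.1 h3 with h | h
    · exact h
    · nlinarith [mul_self_nonneg z.2]
  have : z = 0 := by ext <;> simp [z1, z2]
  rw [hz] at this
  have h4 := (map_eq_zero_iff g g.injective).1 this
  have h5 := congrArg Prod.snd h4
  simp at h5

/-- There are a commutative ring `k` (the field of real numbers), signatures `Ω ⊆ Ω'` with a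
non-nullary and non-unary operation in `Ω`, and two `Ω'`-algebras over `k` whose `Ω`-reducts are
isomorphic and critical and which have the same `Ω'`-identities, but are not isomorphic. -/
theorem result : ∃ (S : Sig) (Ω : Set S.Op) (s t : Str S ℝ (ℝ × ℝ)),
    (∃ w ∈ Ω, 2 ≤ S.ar w) ∧ Isom (reduct Ω s) (reduct Ω t) ∧ Critical (reduct Ω s) ∧
    Critical (reduct Ω t) ∧ Idt s = Idt t ∧ ¬ Isom s t := by
  refine ⟨S₀, Ω₀, st 1, st (-1), ⟨Op₀.mul, rfl, le_refl 2⟩, ?_, critical _, critical _,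
    idt_eq one_ne_zero (neg_ne_zero.2 one_ne_zero), not_isom⟩
  refine ⟨LinearEquiv.refl ℝ _, ?_⟩
  rintro ⟨w, hw⟩ a
  obtain rfl : w = Op₀.mul := hw
  rfl

end Pool.Agent.Results.MP_3dda3d_al.Disproof
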